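import Pool.Agent.MWG.Stmts

/-!
# Row DBS: all letters which are not light can be doubled
-/

namespace Pool.Agent.MWG.H49

open Pool.Agent.Helper14_MV Pool.Agent.Helper2_MV Pool.Agent.MVO Pool.Agent.MWL
open Pool.Agent.MWS Pool.Agent.MWG

/-- double the letters which do not satisfy `P` -/
def dd (P : ℕ → Prop) [DecidablePred P] (l : List ℕ) : List ℕ :=
  l.flatMap (fun c => if P c then [c] else [c, c])

section dd

variable (P : ℕ → Prop) [DecidablePred P]

theorem dd_cons (c : ℕ) (l : List ℕ) :
    dd P (c :: l) = (if P c then [c] else [c, c]) ++ dd P l := rfl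

theorem dd_append (l l' : List ℕ) : dd P (l ++ l') = dd P l ++ dd P l' := by
  unfold dd
  exact List.flatMap_append

theorem count_dd (l : List ℕ) (c : ℕ) :
    (dd P l).count c = if P c then l.count c else 2 * l.count c := by
  induction l with
  | nil => simp [dd]
  | cons a l ih =>
    rw [dd_cons, List.count_append, ih]
    by_cases hP : P c
    · rw [if_pos hP, if_pos hP]
      by_cases h : a = c
      · subst h
        rw [if_pos hP, List.count_cons_self, List.count_cons_self, List.count_nil]
        omega
      · rw [List.count_cons_of_ne h]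
        have : (if P a then [a] else [a, a]).count c = 0 := by
          apply List.count_eq_zero_of_not_mem
          intro hm
          split_ifs at hm
          · exact h (List.mem_singleton.1 hm).symm
          · rcases List.mem_cons.1 hm with e | e
            · exact h e.symm
            · exact h (List.mem_singleton.1 e).symm
        omega
    · rw [if_neg hP, if_neg hP]
      by_cases h : a = c
      · subst h
        rw [if_neg hP, List.count_cons_self, List.count_cons_self, List.count_cons_self,
          List.count_nil]
        omega
      · rw [List.count_cons_of_ne h]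
        have : (if P a then [a] else [a, a]).count c = 0 := by
          apply List.count_eq_zero_of_not_mem
          intro hm
          split_ifs at hm
          · exact h (List.mem_singleton.1 hm).symm
          · rcases List.mem_cons.1 hm with e | e
            · exact h e.symm
            · exact h (List.mem_singleton.1 e).symm
        omega

theorem mem_dd (l : List ℕ) (c : ℕ) : c ∈ dd P l ↔ c ∈ l := by
  rw [← List.count_pos_iff, ← List.count_pos_iff, count_dd]
  split_ifs <;> omega

theorem bef_cons (c : ℕ) (l : List ℕ) (x y : ℕ) :
    Bef (c :: l) x y ↔ (c = y → x ∉ l) ∧ Bef l x y := by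
  constructor
  · intro h
    refine ⟨fun hc => ?_, fun P Q hl => ?_⟩
    · subst hc
      exact h [] l rfl
    · exact h (c :: P) Q (by rw [hl]; rfl)
  · rintro ⟨h1, h2⟩ P Q hl
    cases P with
    | nil =>
      rw [List.nil_append, List.cons.injEq] at hl
      rw [← hl.2]
      exact h1 hl.1
    | cons p P =>
      rw [List.cons_append, List.cons.injEq] at hl
      exact h2 P Q hl.2

theorem bef_dd (l : List ℕ) {x y : ℕ} (hxy : x ≠ y) : Bef (dd P l) x y ↔ Bef l x y := by
  induction l with
  | nil => exact Iff.rfl
  | cons c l ih =>
    rw [dd_cons]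
    by_cases hP : P c
    · rw [if_pos hP]
      have e : [c] ++ dd P l = c :: dd P l := rfl
      rw [e, bef_cons, bef_cons, ih, mem_dd]
    · rw [if_neg hP]
      have e : [c, c] ++ dd P l = c :: c :: dd P l := rfl
      rw [e, bef_cons, bef_cons, bef_cons, ih]
      constructor
      · rintro ⟨_, h2, h3⟩
        exact ⟨fun hc hx => h2 hc ((mem_dd P l x).2 hx), h3⟩
      · rintro ⟨h2, h3⟩
        refine ⟨fun hc hx => ?_, fun hc hx => h2 hc ((mem_dd P l x).1 hx), h3⟩
        rcases List.mem_cons.1 hx with h | h
        · exact hxy (h.trans hc)
        · exact h2 hc ((mem_dd P l x).1 h)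

/-- one block in a fixed context -/
theorem dd_block (h2 : GmdStmt) {β : FIC} (hβ : ClM β) (p q : List ℕ) :
    ∀ (l U : List ℕ), (∀ c ∈ U ++ l, 2 ≤ (p ++ (U ++ l ++ q)).count c) →
      (∀ c ∈ l, ¬ P c → c ∈ p ∨ 2 ≤ (U ++ l).count c) →
      RR β (p ++ (dd P U ++ l ++ q)) (p ++ (dd P U ++ dd P l ++ q)) := by
  intro l
  induction l with
  | nil => intro U _ _; exact RR.refl _
  | cons c l ih =>
    intro U hc hL
    -- the induction hypothesis
    have s2 := ih (U ++ [c]) (by
      have e : U ++ [c] ++ l = U ++ c :: l := by simp
      rw [e]
      exact hc) (fun d hd hPd => by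
      have e : U ++ [c] ++ l = U ++ c :: l := by simp
      rw [e]
      exact hL d (List.mem_cons_of_mem _ hd) hPd)
    have e3 : dd P (U ++ [c]) = dd P U ++ (if P c then [c] else [c, c]) := by
      rw [dd_append, dd_cons]
      simp [dd]
    rw [e3] at s2
    have e4 : p ++ (dd P U ++ dd P (c :: l) ++ q) =
        p ++ (dd P U ++ (if P c then [c] else [c, c]) ++ dd P l ++ q) := by
      rw [dd_cons]
      simp [List.append_assoc]
    rw [e4]
    refine β.trans ?_ s2
    by_cases hP : P c
    · rw [if_pos hP]
      have e5 : p ++ (dd P U ++ c :: l ++ q) = p ++ (dd P U ++ [c] ++ l ++ q) := by simp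
      rw [e5]
      exact RR.refl _
    · rw [if_neg hP]
      by_cases hm : c ∈ p ++ dd P U
      · have s1 := (h2 β hβ).1 (p ++ dd P U) (l ++ q) c 1 2 hm (by omega) (by omega)
        have e5 : p ++ dd P U ++ (List.replicate 1 c ++ (l ++ q)) =
            p ++ (dd P U ++ c :: l ++ q) := by simp
        have e6 : p ++ dd P U ++ (List.replicate 2 c ++ (l ++ q)) =
            p ++ (dd P U ++ [c, c] ++ l ++ q) := by
          simp [List.replicate]
        rw [e5, e6] at s1
        exact s1
      · rw [List.mem_append, not_or] at hm
        obtain ⟨hm1, hm2⟩ := hm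
        rw [mem_dd] at hm2
        have h3 := (hL c List.mem_cons_self hP).resolve_left hm1
        rw [List.count_append, List.count_eq_zero_of_not_mem hm2, List.count_cons_self] at h3
        have h4 : c ∈ l := List.count_pos_iff.1 (by omega)
        obtain ⟨V1, V2, hV⟩ := List.append_of_mem h4
        have s1 := hβ.itr (p ++ dd P U) [] V1 (V2 ++ q) c (by
          intro d hd
          have hd1 : d ∈ V1 := by
            rcases hd with h | h
            · exact absurd h (List.not_mem_nil)
            · exact h
          have hdl : d ∈ U ++ c :: l := by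
            rw [hV]
            simp [hd1]
          have h5 := hc d hdl
          have e7 : p ++ dd P U ++ c :: ([] ++ (V1 ++ c :: (V2 ++ q))) =
              p ++ (dd P U ++ (c :: l) ++ q) := by
            rw [hV]
            simp
          rw [e7]
          simp only [List.count_append] at h5 ⊢
          have h6 : U.count d ≤ (dd P U).count d := by
            rw [count_dd]
            split_ifs <;> omega
          omega)
        have e5 : p ++ dd P U ++ c :: ([] ++ (V1 ++ c :: (V2 ++ q))) =
            p ++ (dd P U ++ c :: l ++ q) := by
          rw [hV]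
          simp
        have e6 : p ++ dd P U ++ c :: ([] ++ c :: (V1 ++ c :: (V2 ++ q))) =
            p ++ (dd P U ++ [c, c] ++ l ++ q) := by
          rw [hV]
          simp
        rw [e5, e6] at s1
        exact s1

end dd

theorem dbl2_eq (B : ℕ → List ℕ) (j : ℕ) :
    dbl2 B j = dd (fun c => Lf (ty B c) j) (B j) := rfl

theorem cnt (B : ℕ → List ℕ) (j c : ℕ) :
    (dbl2 B j).count c = if Lf (ty B c) j then 1 else 2 * (B j).count c := by
  rw [dbl2_eq, count_dd]
  by_cases h : Lf (ty B c) j
  · rw [if_pos h, if_pos h]
    exact h.1
  · rw [if_neg h, if_neg h]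

theorem cnt_le (B : ℕ → List ℕ) (j c : ℕ) : (B j).count c ≤ (dbl2 B j).count c := by
  rw [dbl2_eq, count_dd]
  split_ifs <;> omega

theorem mem_dbl2 (B : ℕ → List ℕ) (j c : ℕ) : c ∈ dbl2 B j ↔ c ∈ B j := by
  rw [dbl2_eq, mem_dd]

/-- **DBS** -/
theorem dbs (h1 : BlrStmt) (h2 : GmdStmt) : DbsStmt := by
  intro β hβ k B hB
  refine ⟨?_, ⟨?_, ?_⟩, ?_, ?_⟩
  · apply h1 β k B (dbl2 B)
    intro m hm
    set C : ℕ → List ℕ := fun j => if j < m then dbl2 B j else B j with hC
    have hCm : C m = B m := by simp [hC]
    have e1 : asm k C = pre C m ++ (B m ++ suf C m (k - m)) := by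
      rw [asm_split hm, hCm, List.append_assoc]
    have e2 : asm k (fun j => if j < m + 1 then dbl2 B j else B j) =
        pre C m ++ (dbl2 B m ++ suf C m (k - m)) := by
      rw [asm_split hm]
      have e3 : pre (fun j => if j < m + 1 then dbl2 B j else B j) m =
          pre C m := pre_congr (fun j hj => by
        simp only [hC]
        rw [if_pos (by omega), if_pos hj])
      have e4 : suf (fun j => if j < m + 1 then dbl2 B j else B j) m
          (k - m) = suf C m (k - m) := suf_congr (fun j hj _ => by
        simp only [hC]
        rw [if_neg (by omega), if_neg (by omega)])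
      rw [e3, e4, if_pos (Nat.lt_succ_self m), List.append_assoc]
    rw [e2, e1, dbl2_eq]
    have key := dd_block (fun c => Lf (ty B c) m) h2 hβ (pre C m) (suf C m (k - m)) (B m) []
      (by
        intro c hc
        rw [List.nil_append] at hc ⊢
        rw [← e1, count_asm (hB.ok m hm c hc)]
        have h3 := hB.ml m hm c hc
        refine le_trans h3 ?_
        unfold deg
        apply Finset.sum_le_sum
        intro j _
        simp only [hC]
        by_cases hj : j < m
        · rw [if_pos hj]
          exact cnt_le B j c
        · rw [if_neg hj])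
      (by
        intro c hc hP
        rw [List.nil_append]
        by_cases hz : ∀ j' < m, ty B c j' = 0
        · right
          have h5 : (B m).count c ≠ 1 := fun h => hP ⟨h, hz⟩
          have h6 : 0 < (B m).count c := List.count_pos_iff.2 hc
          omega
        · left
          push Not at hz
          obtain ⟨j, hj, hj2⟩ := hz
          rw [mem_pre]
          right
          refine ⟨j, hj, ?_⟩
          simp only [hC]
          rw [if_pos hj, mem_dbl2]
          exact List.count_pos_iff.1 (Nat.pos_of_ne_zero hj2))
    exact key
  · intro j hj c hc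
    exact hB.ok j hj c ((mem_dbl2 _ _ _).1 hc)
  · intro j hj c hc
    have h3 := hB.ml j hj c ((mem_dbl2 _ _ _).1 hc)
    refine le_trans h3 ?_
    unfold deg
    apply Finset.sum_le_sum
    intro i _
    exact cnt_le B i c
  · intro j c
    exact cnt B j c
  · intro j c d hcd
    rw [dbl2_eq]
    exact bef_dd _ _ hcd

end Pool.Agent.MWG.H49
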